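import Pool.Agent.Y966.UB.Path1
import Pool.Agent.H499R2.CO.F

/-!
Coalescing classes and residues modulo powers of three.
-/

set_option autoImplicit false

namespace Pool.Agent.N685.LC

open Finset Pool.Agent.Y966.LD

/-! ### powers of two modulo powers of three -/

theorem three_two (j : ℕ) : ¬ (3 : ℤ) ∣ 2 ^ j := by
  intro h
  have h2 : (3 : ℤ) ∣ 2 := Int.prime_three.dvd_of_dvd_pow h
  omega

theorem three_mul {x y : ℤ} (h : (3 : ℤ) ∣ x * y) : (3 : ℤ) ∣ x ∨ (3 : ℤ) ∣ y :=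
  Int.prime_three.dvd_or_dvd h

theorem four_pow (M : ℕ) : ∃ w : ℤ, ¬ (3 : ℤ) ∣ w ∧ (2 : ℤ) ^ (2 * 3 ^ M) = 1 + 3 ^ (M + 1) * w := by
  induction M with
  | zero => exact ⟨1, by norm_num, by norm_num⟩
  | succ M ih =>
    obtain ⟨w, hw, h⟩ := ih
    refine ⟨w + 3 * (3 ^ M * w ^ 2 + 3 ^ (2 * M) * w ^ 3), ?_, ?_⟩
    · intro hd
      apply hw
      exact (Int.dvd_add_left (Dvd.intro _ rfl)).1 hd
    · have e : 2 * 3 ^ (M + 1) = 2 * 3 ^ M * 3 := by rw [pow_succ]; ring
      rw [e, pow_mul, h]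
      ring

theorem two_gen (M : ℕ) : ∀ u : ℤ, ¬ (3 : ℤ) ∣ u →
    ∃ j : ℕ, j < 2 * 3 ^ (M + 1) ∧ ∃ v : ℤ, (2 : ℤ) ^ j = u + 3 ^ (M + 1) * v := by
  induction M with
  | zero =>
    intro u hu
    have h3 : u % 3 = 1 ∨ u % 3 = 2 := by omega
    rcases h3 with h | h
    · exact ⟨0, by norm_num, -(u / 3), by norm_num; omega⟩
    · exact ⟨1, by norm_num, -(u / 3), by norm_num; omega⟩
  | succ M ih =>
    intro u hu
    obtain ⟨j, hj, v, hv⟩ := ih u hu
    obtain ⟨w, hw, hw2⟩ := four_pow M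
    have h2 : ¬ (3 : ℤ) ∣ 2 ^ j := three_two j
    -- choose `e` with `v + e w 2^j` divisible by `3`
    obtain ⟨e, he, he3⟩ : ∃ e : ℕ, e < 3 ∧ (3 : ℤ) ∣ v + e * (w * 2 ^ j) := by
      have hx : ¬ (3 : ℤ) ∣ w * 2 ^ j := by
        intro h
        rcases three_mul h with h | h
        · exact hw h
        · exact h2 h
      set x := w * 2 ^ j
      have h3 : x % 3 = 1 ∨ x % 3 = 2 := by omega
      have h4 : v % 3 = 0 ∨ v % 3 = 1 ∨ v % 3 = 2 := by omega
      rcases h3 with h3 | h3 <;> rcases h4 with h4 | h4 | h4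
      · exact ⟨0, by norm_num, by push_cast; omega⟩
      · exact ⟨2, by norm_num, by push_cast; omega⟩
      · exact ⟨1, by norm_num, by push_cast; omega⟩
      · exact ⟨0, by norm_num, by push_cast; omega⟩
      · exact ⟨1, by norm_num, by push_cast; omega⟩
      · exact ⟨2, by norm_num, by push_cast; omega⟩
    obtain ⟨y, hy⟩ := he3
    have hpow : ∀ e : ℕ, ∃ z : ℤ, (1 + 3 ^ (M + 1) * w) ^ e = 1 + 3 ^ (M + 1) * (e * w) + 3 ^ (M + 2) * z := by
      intro e
      induction e with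
      | zero => exact ⟨0, by simp⟩
      | succ e ihe =>
        obtain ⟨z, hz⟩ := ihe
        refine ⟨z * (1 + 3 ^ (M + 1) * w) + 3 ^ M * (e * w ^ 2), ?_⟩
        rw [pow_succ, hz]
        push_cast
        ring
    obtain ⟨z, hz⟩ := hpow e
    refine ⟨j + 2 * 3 ^ M * e, ?_, y + z * 2 ^ j, ?_⟩
    · have h5 : 2 * 3 ^ M * e ≤ 2 * 3 ^ M * 2 := Nat.mul_le_mul_left _ (by omega)
      have h6 : 2 * 3 ^ (M + 1 + 1) = 2 * 3 ^ (M + 1) + 2 * 3 ^ M * 6 := by
        rw [pow_succ, pow_succ]; ring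
      have h7 : 0 < 3 ^ M := by positivity
      nlinarith
    · rw [pow_add, pow_mul, hw2, hz]
      have e1 : (3 : ℤ) ^ (M + 1 + 1) * (y + z * 2 ^ j) =
          3 ^ (M + 1) * (3 * y) + 3 ^ (M + 2) * z * 2 ^ j := by ring
      rw [e1, ← hy]
      have e2 : (2 : ℤ) ^ j * (1 + 3 ^ (M + 1) * (e * w) + 3 ^ (M + 2) * z) =
          2 ^ j + 3 ^ (M + 1) * (e * (w * 2 ^ j)) + 3 ^ (M + 2) * z * 2 ^ j := by ring
      rw [e2]
      nth_rewrite 1 [hv]
      ring

/-- every `b` prime to `3` has a preimage after exactly `2 * 3 ^ (N + 1)` steps in every class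
modulo `3 ^ N` -/
theorem adjust (N : ℕ) (A : ℤ) {b : ℤ} (hb : ¬ (3 : ℤ) ∣ b) (hb0 : 0 < b) :
    ∃ a : ℤ, 0 < a ∧ TZ^[2 * 3 ^ (N + 1)] a = b ∧ (3 : ℤ) ^ N ∣ a - A := by
  set S := 2 * 3 ^ (N + 1) with hS
  have h2S : ¬ (3 : ℤ) ∣ 2 ^ S * b := by
    intro h
    rcases three_mul h with h | h
    · exact three_two S h
    · exact hb h
  obtain ⟨j, hj, v, hv⟩ := two_gen N (2 ^ S * b - 3 * A) (by omega)
  rw [← hS] at hj
  -- `3 a = 2^S b - 2^j`
  have h3 : (3 : ℤ) ∣ 2 ^ S * b - 2 ^ j := by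
    rw [hv]
    have : (2 : ℤ) ^ S * b - (2 ^ S * b - 3 * A + 3 ^ (N + 1) * v) = 3 * (A - 3 ^ N * v) := by ring
    rw [this]
    exact Dvd.intro _ rfl
  -- the odd number `y` with `3 y + 1 = 2^(S-j) b`
  have hSj : S = j + (S - j) := by omega
  have hfac : (2 : ℤ) ^ S * b - 2 ^ j = 2 ^ j * (2 ^ (S - j) * b - 1) := by
    conv_lhs => rw [hSj, pow_add]
    ring
  have hy3 : (3 : ℤ) ∣ 2 ^ (S - j) * b - 1 := by
    rw [hfac] at h3
    rcases three_mul h3 with h | h
    · exact absurd h (three_two j)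
    · exact h
  obtain ⟨y, hy⟩ := hy3
  have hy0 : 0 < y := by
    have h1 : (2 : ℤ) ≤ 2 ^ (S - j) := by
      have : (2 : ℤ) ^ 1 ≤ 2 ^ (S - j) := pow_le_pow_right₀ (by norm_num) (by omega)
      simpa using this
    have h2 : (2 : ℤ) ≤ 2 ^ (S - j) * b := by nlinarith
    omega
  refine ⟨2 ^ j * y, by positivity, ?_, ?_⟩
  · have h1 := TZ_letter (e := S - j) (x := b) (b := y) (by omega) (by omega)
    have e : S = (S - j) + j := by omega
    rw [e, Function.iterate_add_apply, (TZ_pow j y).1]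
    exact h1.1
  · have e1 : (3 : ℤ) * (2 ^ j * y - A) = 3 * (3 ^ N * (-v)) := by
      have : (3 : ℤ) * (2 ^ j * y) = 2 ^ j * (3 * y) := by ring
      rw [mul_sub, this, ← hy, ← hfac, hv]
      ring
    have e2 : 2 ^ j * y - A = 3 ^ N * (-v) := by linarith
    rw [e2]
    exact Dvd.intro _ rfl

/-! ### the first steps of a residue class -/

theorem TZ_class (J : ℕ) : ∀ (x m : ℤ), TZ^[J] (x + 2 ^ J * m) = TZ^[J] x + 3 ^ oc J x * m := by
  induction J with
  | zero => intro x m; simp [oc_zero]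
  | succ J ih =>
    intro x m
    rw [Function.iterate_succ_apply, Function.iterate_succ_apply, oc_succ']
    have h2 : (2 : ℤ) ^ (J + 1) * m = 2 * (2 ^ J * m) := by ring
    by_cases h : x % 2 = 1
    · have e : TZ (x + 2 ^ (J + 1) * m) = TZ x + 2 ^ J * (3 * m) := by
        unfold TZ
        rw [h2, if_neg (by omega), if_neg (by omega)]
        have : (2 : ℤ) ^ J * (3 * m) = 3 * (2 ^ J * m) := by ring
        rw [this]
        omega
      rw [e, ih, if_pos h, pow_add]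
      ring
    · have e : TZ (x + 2 ^ (J + 1) * m) = TZ x + 2 ^ J * m := by
        unfold TZ
        rw [h2, if_pos (by omega), if_pos (by omega)]
        omega
      rw [e, ih, if_neg h, zero_add]

theorem even_of_oc (J : ℕ) : ∀ x : ℤ, oc J x = 0 → (2 : ℤ) ^ J ∣ x := by
  induction J with
  | zero => intro x _; simp
  | succ J ih =>
    intro x h
    rw [oc_succ'] at h
    by_cases ho : x % 2 = 1
    · rw [if_pos ho] at h; omega
    · rw [if_neg ho, zero_add] at h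
      obtain ⟨y, hy⟩ := ih (TZ x) h
      refine ⟨y, ?_⟩
      have h1 : TZ x = x / 2 := by unfold TZ; rw [if_pos (by omega)]
      rw [h1] at hy
      rw [pow_succ]
      have : (2 : ℤ) ^ J * 2 * y = 2 * (2 ^ J * y) := by ring
      rw [this, ← hy]
      omega

theorem not_three_TZ {x : ℤ} (h : ¬ (3 : ℤ) ∣ x) : ¬ (3 : ℤ) ∣ TZ x := by
  unfold TZ
  split_ifs <;> omega

theorem not_three_iter {J : ℕ} : ∀ {x : ℤ}, 1 ≤ oc J x → ¬ (3 : ℤ) ∣ TZ^[J] x := by
  have key : ∀ (J : ℕ) {x : ℤ}, ¬ (3 : ℤ) ∣ x → ¬ (3 : ℤ) ∣ TZ^[J] x := by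
    intro J
    induction J with
    | zero => intro x h; exact h
    | succ J ih => intro x h; rw [Function.iterate_succ_apply]; exact ih (not_three_TZ h)
  induction J with
  | zero => intro x h; rw [oc_zero] at h; omega
  | succ J ih =>
    intro x h
    rw [oc_succ'] at h
    rw [Function.iterate_succ_apply]
    by_cases ho : x % 2 = 1
    · apply key
      unfold TZ
      rw [if_neg (by omega)]
      omega
    · rw [if_neg ho, zero_add] at h
      exact ih h

open Pool.Agent.H499R2.CO in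
theorem Tz_eq : Tz 1 = TZ := by
  funext x
  unfold Tz TZ
  rfl

open Pool.Agent.H499R2.CO in
/-- a residue class modulo a power of two in which `h + 1` consecutive integers coalesce -/
theorem coal_class (h : ℕ) : ∃ J c : ℕ, 1 ≤ c ∧ 1 ≤ oc J (c : ℤ) ∧
    ∀ i ≤ h, ∀ m : ℤ, TZ^[J] ((c : ℤ) + 2 ^ J * m + i) = TZ^[J] (c : ℤ) + 3 ^ oc J (c : ℤ) * m := by
  classical
  have hlim : Filter.Tendsto (fun k => ∑ i ∈ range (h + 1), q step (0, 0) k (0, (i : ℤ))) Filter.atTop
      (nhds 0) := by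
    have := tendsto_finset_sum (range (h + 1)) (fun i _ => q_lim (0, (i : ℤ)))
    simpa using this
  obtain ⟨J, hJ, hJ2⟩ := ((hlim.eventually (gt_mem_nhds (show (0 : ℝ) < 1 / 2 by norm_num))).and
    (Filter.eventually_ge_atTop 2)).exists
  -- the classes in which some pair survives
  have hcount : (((range (2 ^ J)).filter fun x : ℕ => ∃ i ≤ h, surv 1 J (0, (i : ℤ)) (x : ℤ)).card : ℝ) <
      2 ^ J * (1 / 2) := by
    have h1 : (((range (2 ^ J)).filter fun x : ℕ => ∃ i ≤ h, surv 1 J (0, (i : ℤ)) (x : ℤ)).card : ℝ) ≤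
        ∑ i ∈ range (h + 1), ∑ x ∈ range (2 ^ J), (if surv 1 J (0, (i : ℤ)) (x : ℤ) then (1 : ℝ) else 0) := by
      rw [sum_comm, card_filter]
      push_cast
      apply sum_le_sum
      intro x _
      by_cases hx : ∃ i ≤ h, surv 1 J (0, (i : ℤ)) (x : ℤ)
      · rw [if_pos hx]
        obtain ⟨i, hi, hs⟩ := hx
        have h2 : (if surv 1 J (0, (i : ℤ)) (x : ℤ) then (1 : ℝ) else 0) ≤
            ∑ i ∈ range (h + 1), (if surv 1 J (0, (i : ℤ)) (x : ℤ) then (1 : ℝ) else 0) :=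
          single_le_sum (f := fun i : ℕ => if surv 1 J (0, (i : ℤ)) (x : ℤ) then (1 : ℝ) else 0)
            (fun i _ => by positivity) (mem_range.2 (by omega))
        rw [if_pos hs] at h2
        exact h2
      · rw [if_neg hx]
        exact sum_nonneg fun i _ => by positivity
    refine lt_of_le_of_lt h1 ?_
    have h2 : ∀ i ∈ range (h + 1), ∑ x ∈ range (2 ^ J), (if surv 1 J (0, (i : ℤ)) (x : ℤ) then (1 : ℝ) else 0) =
        2 ^ J * q step (0, 0) J (0, (i : ℤ)) := by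
      intro i _
      have h3 := count_surv (d := 1) (by norm_num) J (0, (i : ℤ))
      rw [← h3]
    rw [sum_congr rfl h2, ← mul_sum]
    exact mul_lt_mul_of_pos_left hJ (by positivity)
  -- a class different from `0`
  have hex : ∃ c ∈ range (2 ^ J), c ≠ 0 ∧ ¬ ∃ i ≤ h, surv 1 J (0, (i : ℤ)) (c : ℤ) := by
    by_contra hcon
    push Not at hcon
    have hsub : (range (2 ^ J)).erase 0 ⊆
        (range (2 ^ J)).filter fun x : ℕ => ∃ i ≤ h, surv 1 J (0, (i : ℤ)) (x : ℤ) := by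
      intro x hx
      rw [mem_erase] at hx
      rw [mem_filter]
      exact ⟨hx.2, hcon x hx.2 hx.1⟩
    have h1 := card_le_card hsub
    rw [card_erase_of_mem (mem_range.2 (by positivity)), card_range] at h1
    have h2 : ((2 ^ J - 1 : ℕ) : ℝ) < 2 ^ J * (1 / 2) := lt_of_le_of_lt (by exact_mod_cast h1) hcount
    have h3 : (4 : ℕ) ≤ 2 ^ J := by
      calc (4 : ℕ) = 2 ^ 2 := by norm_num
        _ ≤ 2 ^ J := Nat.pow_le_pow_right (by norm_num) hJ2
    rw [Nat.cast_sub (by omega)] at h2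
    have h4 : (4 : ℝ) ≤ 2 ^ J := by exact_mod_cast h3
    push_cast at h2
    linarith
  obtain ⟨c, hc, hc0, hns⟩ := hex
  push Not at hns
  rw [mem_range] at hc
  refine ⟨J, c, by omega, ?_, ?_⟩
  · by_contra hcon
    have h0 : oc J (c : ℤ) = 0 := by omega
    have h1 := even_of_oc J _ h0
    have h2 : 2 ^ J ∣ c := by exact_mod_cast h1
    have h3 := Nat.le_of_dvd (by omega) h2
    omega
  · intro i hi m
    have h1 : ¬ surv 1 J (0, (i : ℤ)) ((c : ℤ) + m * 2 ^ J) := by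
      rw [surv_periodic (by norm_num)]
      exact hns i hi
    obtain ⟨t, ht, heq⟩ := coal (d := 1) (by norm_num) J 0 (i : ℤ) _ h1
    rw [Tz_eq] at heq
    obtain ⟨e, rfl⟩ := Nat.exists_eq_add_of_le' ht
    have h2 : TZ^[e + t] ((c : ℤ) + m * 2 ^ (e + t)) = TZ^[e + t] ((c : ℤ) + 2 ^ (e + t) * m + i) := by
      rw [Function.iterate_add_apply, Function.iterate_add_apply, heq]
      congr 2
      ring
    rw [← h2, mul_comm m, TZ_class]

end Pool.Agent.N685.LC
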