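import Pool.Agent.N685.LC.Run
import Pool.Agent.H395R2.G3.Main
import Pool.Agent.W33.Coll.Main

/-!
The lower half of the large deviation law of the total stopping time of the `3x+1` function on every
level, in all residue classes and for runs of consecutive integers with the same total stopping time;
and the scaled stopping time constant of runs in arithmetic progressions.
-/

set_option autoImplicit false

namespace Pool.Agent.N685.LC.Main

open Filter Topology
open scoped ENNReal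

/-- The `3x+1` function. -/
def T (n : ℕ) : ℕ := if n % 2 = 0 then n / 2 else (3 * n + 1) / 2

/-- `k` is the total stopping time of `n`: the least `k ≥ 0` with `T^(k)(n) = 1` (so it is finite). -/
def IsStoppingTime (n k : ℕ) : Prop := IsLeast {j : ℕ | T^[j] n = 1} k

/-- The total stopping time `σ_∞(n)`: the least `k ≥ 0` with `T^(k)(n) = 1`, and `∞` if there is
none. -/
noncomputable def sigma (n : ℕ) : ℕ∞ := ⨅ (k : ℕ) (_ : T^[k] n = 1), (k : ℕ∞)

/-- The scaled total stopping time `γ_∞(n) = σ_∞(n) / log n` in `[0, ∞]`. -/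
noncomputable def scaled (n : ℕ) : ℝ≥0∞ := (sigma n : ℝ≥0∞) / ENNReal.ofReal (Real.log n)

/-- The scaled stopping time constant `γ = limsup γ_∞(n)`, in `[0, ∞]`. -/
noncomputable def gamma : ℝ≥0∞ := limsup scaled atTop

/-- The constant of the runs of length `H` in the progression `a + q m`: the limsup, as `m → ∞`, of the
minimum of `γ_∞(n), γ_∞(n + 1), ..., γ_∞(n + H - 1)`, where `n = a + q m`. -/
noncomputable def gammaRun (H q a : ℕ) : ℝ≥0∞ :=
  limsup (fun m : ℕ => ⨅ i : Fin H, scaled (a + q * m + i)) atTop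

/-- `g(a) = sup_θ (θ a - log (½ (2^θ + (2/3)^θ)))`. -/
noncomputable def g (a : ℝ) : ℝ :=
  ⨆ θ : ℝ, (θ * a - Real.log ((1 / 2) * ((2 : ℝ) ^ θ + (2 / 3 : ℝ) ^ θ)))

/-- All of `n, n + 1, ..., n + h` have total stopping time exactly `k`, and their trajectories are
straight lines on the logarithmic scale: `log T^(j)(n + i)` is within `ε k` of `(k - j) / α` for all
`j ≤ k` (for `j = 0`: `log (n + i)` is within `ε k` of `k / α`). -/
def Run (h k : ℕ) (α ε : ℝ) : Set ℕ :=
  {n : ℕ | ∀ i ≤ h, IsStoppingTime (n + i) k ∧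
    ∀ j ≤ k, |Real.log (T^[j] (n + i) : ℕ) - ((k : ℝ) - j) / α| ≤ ε * k}

/-- The least integer with total stopping time `k`. -/
noncomputable def least (k : ℕ) : ℕ := sInf {n : ℕ | IsStoppingTime n k}

open Pool.Agent.H395R2.G3 (fT rate FF rr expo_eq rr_pos rr_lt_one)
open Pool.Agent.W33.Coll (Fast Bad transfer reach_all fast_mono)

theorem T_eq : T = fT := rfl

theorem sigma_of {n k : ℕ} (h : IsStoppingTime n k) : sigma n = k := by
  unfold sigma
  apply le_antisymm
  · exact iInf₂_le k h.1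
  · refine le_iInf₂ fun j hj => ?_
    exact_mod_cast h.2 hj

theorem exists_least {n j : ℕ} (h : T^[j] n = 1) : ∃ k, IsStoppingTime n k ∧ k ≤ j := by
  classical
  have hex : ∃ k, T^[k] n = 1 := ⟨j, h⟩
  exact ⟨Nat.find hex, ⟨Nat.find_spec hex, fun i hi => Nat.find_min' hex hi⟩, Nat.find_min' hex h⟩

theorem scaled_le_iff {n : ℕ} (hn : 2 ≤ n) {c : ℝ} (hc : 0 ≤ c) :
    scaled n ≤ ENNReal.ofReal c ↔ Fast c n := by
  have hL : 0 < Real.log n := Real.log_pos (by exact_mod_cast hn)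
  have hL0 : ENNReal.ofReal (Real.log n) ≠ 0 := by
    rw [Ne, ENNReal.ofReal_eq_zero]; exact not_le.2 hL
  unfold scaled
  rw [ENNReal.div_le_iff hL0 ENNReal.ofReal_ne_top, ← ENNReal.ofReal_mul hc]
  constructor
  · intro h
    have hex : ∃ j, T^[j] n = 1 := by
      by_contra hcon
      push Not at hcon
      have h1 : sigma n = ⊤ := by
        unfold sigma
        simp [hcon]
      rw [h1] at h
      simp at h
    obtain ⟨j, hj⟩ := hex
    obtain ⟨k, hk, _⟩ := exists_least hj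
    rw [sigma_of hk] at h
    refine ⟨k, ?_, hk.1⟩
    rw [ENat.toENNReal_coe, ← ENNReal.ofReal_natCast] at h
    exact (ENNReal.ofReal_le_ofReal_iff (by positivity)).1 h
  · rintro ⟨j, hj, hj1⟩
    obtain ⟨k, hk, hkj⟩ := exists_least (n := n) (j := j) hj1
    rw [sigma_of hk, ENat.toENNReal_coe, ← ENNReal.ofReal_natCast]
    apply ENNReal.ofReal_le_ofReal
    have : (k : ℝ) ≤ j := by exact_mod_cast hkj
    linarith

theorem inv_univ : Pool.Agent.W33.Coll.Inv Set.univ := fun _ _ => Iff.rfl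

theorem gammaRun_le (H q a : ℕ) (hH : 1 ≤ H) (hq : 1 ≤ q) : gammaRun H q a ≤ gamma := by
  unfold gammaRun gamma
  have h1 : limsup (fun m : ℕ => ⨅ i : Fin H, scaled (a + q * m + i)) atTop ≤
      limsup (scaled ∘ fun m : ℕ => a + q * m) atTop := by
    apply limsup_le_limsup _ (by isBoundedDefault) (by isBoundedDefault)
    refine Eventually.of_forall fun m => ?_
    refine (iInf_le _ (⟨0, hH⟩ : Fin H)).trans ?_
    simp
  refine h1.trans ?_
  have h2 : limsup (scaled ∘ fun m : ℕ => a + q * m) atTop =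
      limsup scaled (map (fun m : ℕ => a + q * m) atTop) := rfl
  rw [h2]
  apply limsup_le_limsup_of_le _ (by isBoundedDefault) (by isBoundedDefault)
  apply tendsto_atTop_mono _ tendsto_id
  intro m
  have : m ≤ q * m := Nat.le_mul_of_pos_left _ hq
  simp only [id]
  omega

/-- the count on every level -/
theorem count {α : ℝ} (hα : 1 / Real.log 2 < α) (hpos : 0 < 1 - α * g (1 / α)) (h q a : ℕ)
    (hq : 1 ≤ q) {ε : ℝ} (hε : 0 < ε) : ∃ k₀ : ℕ, ∀ k : ℕ, k₀ ≤ k →
      Real.exp ((1 / α - g (1 / α) - ε) * k) ≤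
        (({n : ℕ | n ≡ a [MOD q] ∧ n ∈ Run h k α ε}).ncard : ℝ) := by
  have hl2 : 0 < Real.log 2 := Real.log_pos (by norm_num)
  have hl3 : 0 < Real.log 3 := Real.log_pos (by norm_num)
  have hα0 : 0 < α := lt_trans (by positivity) hα
  have h1 : 1 - α * g (1 / α) = α * FF (rr α) := expo_eq hα
  have hF : FF (rr α) = 1 / α - g (1 / α) := by
    field_simp
    linarith
  have hF0 : 0 < FF (rr α) := by
    rw [h1] at hpos
    exact (pos_iff_pos_of_mul_pos hpos).1 hα0
  have hs : 1 / α = Real.log 2 - rr α * Real.log 3 := by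
    unfold rr
    field_simp
    ring
  obtain ⟨k₀, hk₀⟩ := Pool.Agent.N685.LC.class_lower (rr_pos hα) (rr_lt_one hα0) hF0 hs h q a hq hε
  refine ⟨k₀, fun k hk => ?_⟩
  have h2 := hk₀ k hk
  rw [hF] at h2
  refine h2.trans (le_of_eq ?_)
  congr 2
  ext n
  simp only [Run, Pool.Agent.N685.LC.Run, Set.mem_setOf_eq]
  refine and_congr_right fun _ => forall_congr' fun i => imp_congr_right fun _ =>
    and_congr_right fun _ => forall_congr' fun j => imp_congr_right fun _ => ?_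
  have e : 1 / α * ((k : ℝ) - j) = ((k : ℝ) - j) / α := by ring
  rw [e]
  rfl

/-- long runs with slow trajectories on every level -/
theorem slow {γ₀ : ℝ} (hγ4 : 4 < γ₀)
    (hA : ∀ α : ℝ, 1 / Real.log 2 < α → α < γ₀ → 0 < 1 - α * g (1 / α))
    (h q a : ℕ) (hq : 1 ≤ q) {ε : ℝ} (hε : 0 < ε) : ∃ k₀ : ℕ, ∀ k : ℕ, k₀ ≤ k →
      ∃ n : ℕ, k ≤ n ∧ n ≡ a [MOD q] ∧ (∀ i ≤ h, IsStoppingTime (n + i) k) ∧
        ∀ i ≤ h, (γ₀ - ε) * Real.log ((n + i : ℕ) : ℝ) ≤ k := by
  have hl2 := Real.log_two_gt_d9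
  have hlog2 : 1 / Real.log 2 < 2 := by
    rw [div_lt_iff₀ (by linarith)]
    linarith
  set α : ℝ := max (γ₀ - ε / 2) 3 with hα
  have hα3 : 3 ≤ α := le_max_right _ _
  have hα1 : 1 / Real.log 2 < α := by linarith
  have hαγ : α < γ₀ := max_lt (by linarith) (by linarith)
  have hα0 : 0 < α := by linarith
  have hpos := hA α hα1 hαγ
  -- tolerance
  set t : ℝ := min (1 / (2 * α)) (ε / (4 * γ₀ ^ 2)) with ht
  have ht0 : 0 < t := lt_min (by positivity) (by positivity)
  have ht1 : t ≤ 1 / (2 * α) := min_le_left _ _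
  have ht2 : t * (4 * γ₀ ^ 2) ≤ ε := by
    have h2 : t ≤ ε / (4 * γ₀ ^ 2) := min_le_right _ _
    rwa [le_div_iff₀ (by positivity)] at h2
  obtain ⟨k₁, hk₁⟩ := count hα1 hpos h q a hq ht0
  obtain ⟨k₂, hk₂⟩ : ∃ k₂ : ℕ, ∀ k : ℕ, k₂ ≤ k → Real.log k ≤ 1 / (2 * α) * k := by
    have h1 : Tendsto (fun x : ℝ => Real.log x / x) atTop (𝓝 0) := by
      have := Real.isLittleO_log_id_atTop.tendsto_div_nhds_zero
      simpa using this
    have h2 := (h1.comp tendsto_natCast_atTop_atTop).eventually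
      (gt_mem_nhds (show (0 : ℝ) < 1 / (2 * α) by positivity))
    obtain ⟨k₂, hk₂⟩ := eventually_atTop.1 h2
    refine ⟨max k₂ 1, fun k hk => ?_⟩
    have h3 := hk₂ k ((le_max_left _ _).trans hk)
    have h4 : (0 : ℝ) < k := by exact_mod_cast (le_max_right k₂ 1).trans hk
    simp only [Function.comp] at h3
    rw [div_lt_iff₀ h4] at h3
    exact h3.le
  refine ⟨max (max k₁ k₂) 1, fun k hk => ?_⟩
  have hk1 : k₁ ≤ k := ((le_max_left _ _).trans (le_max_left _ _)).trans hk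
  have hk2 : k₂ ≤ k := ((le_max_right _ _).trans (le_max_left _ _)).trans hk
  have hk0 : (0 : ℝ) < k := by exact_mod_cast (le_max_right (max k₁ k₂) 1).trans hk
  have h2 := hk₁ k hk1
  have hne : ({n : ℕ | n ≡ a [MOD q] ∧ n ∈ Run h k α t}).Nonempty := by
    by_contra hcon
    rw [Set.not_nonempty_iff_eq_empty] at hcon
    rw [hcon, Set.ncard_empty, Nat.cast_zero] at h2
    exact absurd h2 (not_le.2 (Real.exp_pos _))
  obtain ⟨n, hn1, hn2⟩ := hne
  have hlogs : ∀ i ≤ h, |Real.log ((n + i : ℕ) : ℝ) - (k : ℝ) / α| ≤ t * k := by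
    intro i hi
    have h3 := (hn2 i hi).2 0 (Nat.zero_le _)
    rw [Function.iterate_zero, id, Nat.cast_zero, sub_zero] at h3
    exact h3
  refine ⟨n, ?_, hn1, fun i hi => (hn2 i hi).1, fun i hi => ?_⟩
  · have h3 := (abs_le.1 (hlogs 0 (Nat.zero_le _))).1
    rw [add_zero] at h3
    have h4 : t * k ≤ 1 / (2 * α) * k := mul_le_mul_of_nonneg_right ht1 hk0.le
    have h5 : (k : ℝ) / α - 1 / (2 * α) * k = 1 / (2 * α) * k := by
      field_simp
      ring
    have h6 : Real.log k ≤ Real.log n := by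
      have := hk₂ k hk2
      linarith
    have hn0 : (0 : ℝ) < n := by
      rcases Nat.eq_zero_or_pos n with h0 | h0
      · exfalso
        have h7 := (hn2 0 (Nat.zero_le _)).1.1
        have h8 : T^[k] (n + 0) = 1 := h7
        rw [h0] at h8
        have h9 : ∀ k, T^[k] 0 = 0 := by
          intro k
          induction k with
          | zero => rfl
          | succ k ih => rw [Function.iterate_succ_apply']; rw [ih]; rfl
        rw [add_zero, h9] at h8
        omega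
      · exact_mod_cast h0
    have h7 := (Real.log_le_log_iff hk0 hn0).1 h6
    exact_mod_cast h7
  · have h3 := (abs_le.1 (hlogs i hi)).2
    have h4 : Real.log ((n + i : ℕ) : ℝ) ≤ (1 / α + t) * k := by
      have : (1 / α + t) * k = k / α + t * k := by ring
      linarith
    rcases le_or_gt (γ₀ - ε) 0 with hneg | hpos'
    · have h5 : 0 ≤ Real.log ((n + i : ℕ) : ℝ) := Real.log_natCast_nonneg _
      have : (γ₀ - ε) * Real.log ((n + i : ℕ) : ℝ) ≤ 0 := mul_nonpos_of_nonpos_of_nonneg hneg h5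
      linarith
    · refine (mul_le_mul_of_nonneg_left h4 hpos'.le).trans ?_
      have h6 : (γ₀ - ε) * (1 / α + t) ≤ 1 := by
        have hαε : γ₀ - ε / 2 ≤ α := le_max_left _ _
        have h7 : (γ₀ - ε) * (1 / α + t) * α = (γ₀ - ε) * (1 + t * α) := by
          field_simp
        have h8 : (γ₀ - ε) * (1 + t * α) ≤ α := by
          have h9 : t * α ≤ t * γ₀ := mul_le_mul_of_nonneg_left hαγ.le ht0.le
          have h10 : (γ₀ - ε) * (t * α) ≤ γ₀ * (t * γ₀) := by
            apply mul_le_mul (by linarith) h9 (by positivity) (by linarith)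
          have h11 : γ₀ * (t * γ₀) = t * (4 * γ₀ ^ 2) / 4 := by ring
          nlinarith
        by_contra hcon
        push Not at hcon
        have h9 : α < (γ₀ - ε) * (1 / α + t) * α := by nlinarith
        rw [h7] at h9
        linarith
      have := mul_le_mul_of_nonneg_right h6 hk0.le
      rw [mul_assoc] at this
      linarith

theorem gammaRun_ge {γ₀ : ℝ} (hγ4 : 4 < γ₀)
    (hA : ∀ α : ℝ, 1 / Real.log 2 < α → α < γ₀ → 0 < 1 - α * g (1 / α))
    (H q a : ℕ) (hq : 1 ≤ q) : ENNReal.ofReal γ₀ ≤ gammaRun H q a := by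
  have key : ∀ ε : ℝ, 0 < ε → ε < 1 → ENNReal.ofReal (γ₀ - ε) ≤ gammaRun H q a := by
    intro ε hε hε1
    obtain ⟨k₀, hk₀⟩ := slow hγ4 hA H q a hq (half_pos hε)
    unfold gammaRun
    apply le_limsup_of_frequently_le _ (by isBoundedDefault)
    rw [frequently_atTop]
    intro M
    obtain ⟨n, hn1, hn2, hn3, hn4⟩ := hk₀ (max k₀ (a + q * (M + 2))) (le_max_left _ _)
    set k := max k₀ (a + q * (M + 2)) with hk
    have hkb : a + q * (M + 2) ≤ k := le_max_right _ _
    have han : a ≤ n := by omega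
    obtain ⟨m, hm⟩ := (Nat.modEq_iff_dvd' han).1 hn2.symm
    have hnm : n = a + q * m := by omega
    have hMm : M + 2 ≤ m := by
      by_contra hcon
      push Not at hcon
      have : q * m < q * (M + 2) := Nat.mul_lt_mul_of_pos_left hcon (by omega)
      omega
    refine ⟨m, by omega, ?_⟩
    apply le_iInf
    intro i
    rw [← hnm]
    have hq2 : M + 2 ≤ q * (M + 2) := Nat.le_mul_of_pos_left _ hq
    have hn2' : 2 ≤ n + i := by omega
    by_contra hcon
    push Not at hcon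
    have h1 := (scaled_le_iff hn2' (show 0 ≤ γ₀ - ε by linarith)).1 hcon.le
    obtain ⟨j, hj1, hj2⟩ := h1
    have h2 := (hn3 i i.2.le).2 (show j ∈ {j : ℕ | T^[j] (n + i) = 1} from hj2)
    have h3 := hn4 i i.2.le
    have h4 : (k : ℝ) ≤ j := by exact_mod_cast h2
    have hL : 0 < Real.log ((n + i : ℕ) : ℝ) := Real.log_pos (by exact_mod_cast hn2')
    nlinarith
  refine ENNReal.le_of_forall_pos_le_add fun ε hε _ => ?_
  set e : ℝ := min (ε : ℝ) (1 / 2) with he
  have he0 : 0 < e := lt_min (by exact_mod_cast hε) (by norm_num)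
  have he1 : e < 1 := lt_of_le_of_lt (min_le_right _ _) (by norm_num)
  have h1 := key e he0 he1
  calc ENNReal.ofReal γ₀ ≤ ENNReal.ofReal ((γ₀ - e) + e) := by rw [sub_add_cancel]
    _ ≤ ENNReal.ofReal (γ₀ - e) + ENNReal.ofReal e := ENNReal.ofReal_add_le
    _ ≤ gammaRun H q a + ε := by
        apply add_le_add h1
        have h2 : e ≤ (ε : ℝ) := min_le_left _ _
        rw [← ENNReal.ofReal_coe_nnreal]
        exact ENNReal.ofReal_le_ofReal h2

theorem fast_iff {c : ℝ} {n : ℕ} : Fast c n ↔ ∃ k : ℕ, (k : ℝ) ≤ c * Real.log n ∧ T^[k] n = 1 := Iff.rfl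

/-- a bound for the runs in one progression gives a bound for all integers -/
theorem upper_of_run {γ₀ : ℝ} (hγμ : 2 / Real.log (4 / 3) < γ₀) {H q a : ℕ} (hq : 1 ≤ q)
    (hyp : gammaRun H q a = ENNReal.ofReal γ₀) :
    ∀ ε : ℝ, 0 < ε → ∃ N : ℕ, ∀ n : ℕ, N ≤ n → Fast (γ₀ + ε) n := by
  intro ε hε
  have hμ0 : 0 < 2 / Real.log (4 / 3) := div_pos two_pos (Real.log_pos (by norm_num))
  set μ := 2 / Real.log (4 / 3) with hμ
  have hγ0 : 0 < γ₀ := lt_trans hμ0 hγμ
  set α := γ₀ + ε / 4 with hα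
  have hαμ : 0 < α - μ := by rw [hα]; linarith
  set δ := (α - μ) / (α - μ + ε / 2) with hδ
  have hδ0 : 0 < δ := by positivity
  have hδ1 : δ < 1 := by
    rw [hδ, div_lt_one (by positivity)]
    linarith
  have hval : (α - μ) / δ = α - μ + ε / 2 := by
    rw [hδ]
    field_simp
  -- the runs are bounded
  have h1 : ∀ᶠ m : ℕ in atTop, (⨅ i : Fin H, scaled (a + q * m + i)) < ENNReal.ofReal α := by
    apply eventually_lt_of_limsup_lt _ (by isBoundedDefault)
    show gammaRun H q a < _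
    rw [hyp]
    exact (ENNReal.ofReal_lt_ofReal_iff (by linarith)).2 (by linarith)
  obtain ⟨M, hM⟩ := eventually_atTop.1 h1
  have h2 : ∀ n : ℕ, a + q * (M + 2) ≤ n → ∃ h < H + q, Fast α (n + h) := by
    intro n hn
    -- the next element of the progression
    obtain ⟨j, hj, m, hm⟩ : ∃ j < q, ∃ m, n + j = a + q * m := by
      have hdm := Nat.div_add_mod (n - a) q
      have hlt := Nat.mod_lt (n - a) (show 0 < q by omega)
      rcases Nat.eq_zero_or_pos ((n - a) % q) with h0 | h0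
      · exact ⟨0, by omega, (n - a) / q, by omega⟩
      · refine ⟨q - (n - a) % q, by omega, (n - a) / q + 1, ?_⟩
        rw [mul_add, mul_one]
        omega
    have hmM : M + 2 ≤ m := by
      by_contra hcon
      push Not at hcon
      have : q * m < q * (M + 2) := Nat.mul_lt_mul_of_pos_left hcon (by omega)
      omega
    have h3 := hM m (by omega)
    rw [iInf_lt_iff] at h3
    obtain ⟨i, hi⟩ := h3
    have hqm : m ≤ q * m := Nat.le_mul_of_pos_left _ hq
    refine ⟨j + i, by omega, ?_⟩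
    have e : n + (j + i) = a + q * m + i := by omega
    rw [e]
    exact (scaled_le_iff (by omega) (by linarith)).1 hi.le
  -- few exceptions
  have h3 : ∃ X : ℝ, ∀ x : ℝ, X ≤ x → ((Bad Set.univ α (H + q) x).ncard : ℝ) ≤ x ^ (1 - δ) := by
    obtain ⟨X, hX⟩ := eventually_atTop.1
      ((tendsto_rpow_atTop (show 0 < 1 - δ by linarith)).eventually_ge_atTop
        ((a + q * (M + 2) : ℕ) : ℝ))
    refine ⟨X, fun x hx => le_trans ?_ (hX x hx)⟩
    have hsub : Bad Set.univ α (H + q) x ⊆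
        ((Finset.range (a + q * (M + 2)) : Finset ℕ) : Set ℕ) := by
      rintro n ⟨_, _, _, h4⟩
      rw [Finset.mem_coe, Finset.mem_range]
      by_contra hcon
      obtain ⟨h, hh, hf⟩ := h2 n (by omega)
      exact h4 h hh hf
    have h4 := Set.ncard_le_ncard hsub (Finset.finite_toSet _)
    rw [Set.ncard_coe_finset, Finset.card_range] at h4
    exact_mod_cast h4
  obtain ⟨N, hN⟩ := transfer inv_univ (H := H + q) (show μ < α by linarith) hδ0 hδ1.le
    (show 0 < ε / 4 by positivity) h3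
  refine ⟨N, fun n hn => fast_mono ?_ (hN n hn (Set.mem_univ _))⟩
  rw [← hμ, hval]
  linarith

theorem reaches_of_upper {C : ℝ} {N : ℕ} (h : ∀ n : ℕ, N ≤ n → Fast C n) :
    ∀ n : ℕ, 1 ≤ n → ∃ k : ℕ, T^[k] n = 1 := by
  intro n hn
  exact reach_all inv_univ (M₀ := N) (fun m h1 _ _ => by
    obtain ⟨k, _, hk⟩ := h m h1
    exact ⟨k, hk⟩) hn (Set.mem_univ _)

theorem gamma_le_of_upper {γ₀ : ℝ} (hγ0 : 0 < γ₀)
    (h : ∀ ε : ℝ, 0 < ε → ∃ N : ℕ, ∀ n : ℕ, N ≤ n → Fast (γ₀ + ε) n) :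
    gamma ≤ ENNReal.ofReal γ₀ := by
  refine ENNReal.le_of_forall_pos_le_add fun ε hε _ => ?_
  obtain ⟨N, hN⟩ := h ε (by exact_mod_cast hε)
  unfold gamma
  have h1 : limsup scaled atTop ≤ ENNReal.ofReal (γ₀ + ε) := by
    apply limsup_le_of_le (by isBoundedDefault)
    filter_upwards [eventually_ge_atTop (max N 2)] with n hn
    have hε' : (0 : ℝ) < ε := by exact_mod_cast hε
    exact (scaled_le_iff ((le_max_right _ _).trans hn) (by linarith)).2
      (hN n ((le_max_left _ _).trans hn))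
  refine h1.trans ?_
  rw [ENNReal.ofReal_add hγ0.le (by exact_mod_cast hε.le), ENNReal.ofReal_coe_nnreal]

theorem upper_of_gamma {γ₀ : ℝ} (hγ0 : 0 < γ₀) (h : gamma = ENNReal.ofReal γ₀) :
    ∀ ε : ℝ, 0 < ε → ∃ N : ℕ, ∀ n : ℕ, N ≤ n → Fast (γ₀ + ε) n := by
  intro ε hε
  have h1 : ∀ᶠ n : ℕ in atTop, scaled n < ENNReal.ofReal (γ₀ + ε) := by
    apply eventually_lt_of_limsup_lt _ (by isBoundedDefault)
    show gamma < _
    rw [h]
    exact (ENNReal.ofReal_lt_ofReal_iff (by linarith)).2 (by linarith)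
  obtain ⟨N, hN⟩ := eventually_atTop.1 h1
  refine ⟨max N 2, fun n hn => ?_⟩
  exact (scaled_le_iff ((le_max_right _ _).trans hn) (by linarith)).1
    (hN n ((le_max_left _ _).trans hn)).le

theorem level_ne (k : ℕ) : ({n : ℕ | IsStoppingTime n k}).Nonempty := by
  refine ⟨2 ^ k, ?_, ?_⟩
  · have : ∀ k : ℕ, T^[k] (2 ^ k) = 1 := by
      intro k
      induction k with
      | zero => rfl
      | succ k ih =>
        rw [Function.iterate_succ_apply]
        have h1 : T (2 ^ (k + 1)) = 2 ^ k := by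
          unfold T
          rw [if_pos (by rw [pow_succ]; omega), pow_succ]
          omega
        rw [h1, ih]
    exact this k
  · intro j hj
    have hj' : T^[j] (2 ^ k) = 1 := hj
    by_contra hlt
    push Not at hlt
    have h1 : ∀ j m : ℕ, T^[j] (2 ^ (j + m)) = 2 ^ m := by
      intro j
      induction j with
      | zero => intro m; simp
      | succ j ih =>
        intro m
        rw [Function.iterate_succ_apply]
        have h2 : T (2 ^ (j + 1 + m)) = 2 ^ (j + m) := by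
          have e : 2 ^ (j + 1 + m) = 2 * 2 ^ (j + m) := by
            rw [show j + 1 + m = (j + m) + 1 by ring, pow_succ]; ring
          rw [e]
          unfold T
          rw [if_pos (by omega)]
          omega
        rw [h2, ih]
    obtain ⟨m, rfl⟩ : ∃ m, k = j + (m + 1) := ⟨k - j - 1, by omega⟩
    rw [h1] at hj'
    have : 2 ^ 1 ≤ 2 ^ (m + 1) := Nat.pow_le_pow_right (by norm_num) (by omega)
    omega

theorem least_mem (k : ℕ) : IsStoppingTime (least k) k := Nat.sInf_mem (level_ne k)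

theorem least_le {n k : ℕ} (h : IsStoppingTime n k) : least k ≤ n := Nat.sInf_le h

theorem one_le {n k : ℕ} (h : IsStoppingTime n k) : 1 ≤ n := Pool.Agent.N685.LC.one_le_of_least h

/-- from the constant to the minima of the levels -/
theorem limit_of_upper {γ₀ : ℝ} (hγ4 : 4 < γ₀)
    (hA : ∀ α : ℝ, 1 / Real.log 2 < α → α < γ₀ → 0 < 1 - α * g (1 / α))
    (h : ∀ ε : ℝ, 0 < ε → ∃ N : ℕ, ∀ n : ℕ, N ≤ n → Fast (γ₀ + ε) n) :
    Tendsto (fun k : ℕ => Real.log (least k) / k) atTop (𝓝 (1 / γ₀)) := by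
  have hγ0 : 0 < γ₀ := by linarith
  have hlow : ∀ η : ℝ, 0 < η → ∀ᶠ k : ℕ in atTop, 1 / (γ₀ + η) ≤ Real.log (least k) / k := by
    intro η hη
    obtain ⟨N, hN⟩ := h η hη
    -- large levels have large elements
    have hev : ∃ K : ℕ, ∀ k : ℕ, K ≤ k → ∀ n : ℕ, IsStoppingTime n k → N ≤ n := by
      classical
      have hch : ∀ n : ℕ, ∃ K : ℕ, ∀ k : ℕ, IsStoppingTime n k → k ≤ K := by
        intro n
        by_cases hex : ∃ k, IsStoppingTime n k
        · obtain ⟨K, hK⟩ := hex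
          exact ⟨K, fun k hk => (hk.unique hK).le⟩
        · exact ⟨0, fun k hk => absurd ⟨k, hk⟩ hex⟩
      choose f hf using hch
      refine ⟨(Finset.range N).sup f + 1, fun k hk n hn => ?_⟩
      by_contra hcon
      push Not at hcon
      have h1 := hf n k hn
      have h2 : f n ≤ (Finset.range N).sup f := Finset.le_sup (f := f) (Finset.mem_range.2 hcon)
      omega
    obtain ⟨K, hK⟩ := hev
    filter_upwards [eventually_ge_atTop (max K 1)] with k hk
    have hk0 : (0 : ℝ) < k := by exact_mod_cast (le_max_right K 1).trans hk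
    have h1 := hK k ((le_max_left _ _).trans hk) (least k) (least_mem k)
    obtain ⟨j, hj1, hj2⟩ := hN _ h1
    have h2 : (k : ℝ) ≤ j := by exact_mod_cast (least_mem k).2 (show j ∈ {j : ℕ | T^[j] (least k) = 1} from hj2)
    rw [div_le_div_iff₀ (by linarith) hk0]
    linarith
  have hup : ∀ η : ℝ, 0 < η → η < γ₀ → ∀ᶠ k : ℕ in atTop, Real.log (least k) / k ≤ 1 / (γ₀ - η) := by
    intro η hη hη2
    obtain ⟨k₀, hk₀⟩ := slow hγ4 hA 0 1 0 le_rfl hη
    filter_upwards [eventually_ge_atTop (max k₀ 1)] with k hk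
    have hk0 : (0 : ℝ) < k := by exact_mod_cast (le_max_right k₀ 1).trans hk
    obtain ⟨n, _, _, hn3, hn4⟩ := hk₀ k ((le_max_left _ _).trans hk)
    have h1 := hn3 0 le_rfl
    have h2 := hn4 0 le_rfl
    rw [add_zero] at h1 h2
    have h3 : Real.log (least k) ≤ Real.log n := by
      apply Real.log_le_log
      · exact_mod_cast one_le (least_mem k)
      · exact_mod_cast least_le h1
    rw [div_le_div_iff₀ hk0 (by linarith)]
    nlinarith
  rw [tendsto_order]
  constructor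
  · intro b hb
    rcases le_or_gt b 0 with hb0 | hb0
    · filter_upwards [hlow 1 one_pos] with k hk
      exact lt_of_lt_of_le (lt_of_le_of_lt hb0 (by positivity)) hk
    · have h1 : γ₀ < 1 / b := by
        rw [lt_div_iff₀ hb0]
        rw [lt_div_iff₀ hγ0] at hb
        linarith
      have h2 := hlow ((1 / b - γ₀) / 2) (by linarith)
      filter_upwards [h2] with k hk
      refine lt_of_lt_of_le ?_ hk
      rw [lt_div_iff₀ (by linarith)]
      have h3 : γ₀ + (1 / b - γ₀) / 2 < 1 / b := by linarith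
      have h4 := mul_lt_mul_of_pos_left h3 hb0
      rwa [mul_one_div_cancel hb0.ne'] at h4
  · intro b hb
    have hb0 : 0 < b := lt_trans (by positivity) hb
    have h1 : 1 / b < γ₀ := by
      rw [div_lt_iff₀ hb0]
      rw [gt_iff_lt, div_lt_iff₀ hγ0] at hb
      linarith
    have hbp : 0 < 1 / b := by positivity
    have h2 := hup ((γ₀ - 1 / b) / 2) (by linarith) (by linarith)
    filter_upwards [h2] with k hk
    refine lt_of_le_of_lt hk ?_
    rw [div_lt_iff₀ (by linarith)]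
    have h3 : 1 / b < γ₀ - (γ₀ - 1 / b) / 2 := by linarith
    have h4 := mul_lt_mul_of_pos_left h3 hb0
    rwa [mul_one_div_cancel hb0.ne'] at h4

/-- from the minima of the levels to the constant -/
theorem upper_of_limit {γ₀ : ℝ} (hγ0 : 0 < γ₀) (hreach : ∀ n : ℕ, 1 ≤ n → ∃ k : ℕ, T^[k] n = 1)
    (h : Tendsto (fun k : ℕ => Real.log (least k) / k) atTop (𝓝 (1 / γ₀))) :
    ∀ ε : ℝ, 0 < ε → ∃ N : ℕ, ∀ n : ℕ, N ≤ n → Fast (γ₀ + ε) n := by
  intro ε hε
  have h1 : 1 / (γ₀ + ε) < 1 / γ₀ := by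
    apply one_div_lt_one_div_of_lt hγ0
    linarith
  obtain ⟨K, hK⟩ := eventually_atTop.1 (h.eventually (lt_mem_nhds h1))
  obtain ⟨N, hN⟩ := eventually_atTop.1
    ((Real.tendsto_log_atTop.comp tendsto_natCast_atTop_atTop).eventually_ge_atTop
      ((K : ℝ) / (γ₀ + ε)))
  refine ⟨max N 1, fun n hn => ?_⟩
  obtain ⟨j, hj⟩ := hreach n ((le_max_right _ _).trans hn)
  obtain ⟨k, hk, _⟩ := exists_least hj
  refine ⟨k, ?_, hk.1⟩
  rcases le_or_gt K k with hc | hc
  · have h2 := hK k hc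
    rcases Nat.eq_zero_or_pos k with h0 | h0
    · rw [h0, Nat.cast_zero]
      exact mul_nonneg (by linarith) (Real.log_natCast_nonneg n)
    have hk0 : (0 : ℝ) < k := by exact_mod_cast h0
    rw [div_lt_div_iff₀ (by linarith) hk0] at h2
    have h3 : Real.log (least k) ≤ Real.log n := by
      apply Real.log_le_log
      · exact_mod_cast one_le (least_mem k)
      · exact_mod_cast least_le hk
    nlinarith
  · have h2 := hN n ((le_max_left _ _).trans hn)
    simp only [Function.comp] at h2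
    rw [div_le_iff₀ (by linarith)] at h2
    have h3 : (k : ℝ) ≤ K := by exact_mod_cast hc.le
    linarith

theorem main_levels : ∃ γ₀ : ℝ,
    (γ₀ > ((1 / 2) * Real.log (4 / 3))⁻¹ ∧ γ₀ * g (1 / γ₀) = 1) ∧
    (∀ γ : ℝ, γ > ((1 / 2) * Real.log (4 / 3))⁻¹ → γ * g (1 / γ) = 1 → γ = γ₀) ∧
    (41.6776 < γ₀ ∧ γ₀ < 41.6777) ∧
    (∀ α : ℝ, 1 / Real.log 2 < α → α < γ₀ → 0 < 1 / α - g (1 / α) ∧
      ∀ h q a : ℕ, 1 ≤ q → ∀ ε : ℝ, 0 < ε → ∃ k₀ : ℕ, ∀ k : ℕ, k₀ ≤ k →
        Real.exp ((1 / α - g (1 / α) - ε) * k) ≤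
          (({n : ℕ | n ≡ a [MOD q] ∧ n ∈ Run h k α ε}).ncard : ℝ)) ∧
    (∀ h q a : ℕ, 1 ≤ q → ∀ ε : ℝ, 0 < ε → ∃ k₀ : ℕ, ∀ k : ℕ, k₀ ≤ k →
      ∃ n : ℕ, n ≡ a [MOD q] ∧ (∀ i ≤ h, IsStoppingTime (n + i) k) ∧
        (γ₀ - ε) * Real.log ((n + h : ℕ) : ℝ) ≤ k) := by
  obtain ⟨γ₀, hnum, hγ, huniq, _, hld⟩ := Pool.Agent.H395R2.G3.main_gamma
  have hγ4 : 4 < γ₀ := by linarith [hnum.1]
  have hγ0 : 0 < γ₀ := by linarith
  have hA : ∀ α : ℝ, 1 / Real.log 2 < α → α < γ₀ → 0 < 1 - α * g (1 / α) :=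
    fun α h1 h2 => (hld α h1 h2).1
  refine ⟨γ₀, hγ, huniq, hnum, fun α h1 h2 => ⟨?_, fun h q a hq ε hε => ?_⟩,
    fun h q a hq ε hε => ?_⟩
  · have h3 := hA α h1 h2
    have hl2 : 0 < Real.log 2 := Real.log_pos (by norm_num)
    have hα0 : 0 < α := lt_trans (by positivity) h1
    have h4 : 1 / α - g (1 / α) = (1 - α * g (1 / α)) / α := by
      field_simp
    rw [h4]
    positivity
  · exact count h1 (hA α h1 h2) h q a hq hε
  · obtain ⟨k₀, hk₀⟩ := slow hγ4 hA h q a hq hε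
    refine ⟨k₀, fun k hk => ?_⟩
    obtain ⟨n, _, h2, h3, h4⟩ := hk₀ k hk
    exact ⟨n, h2, h3, h4 h le_rfl⟩

theorem main_runs : ∃ γ₀ : ℝ,
    (γ₀ > ((1 / 2) * Real.log (4 / 3))⁻¹ ∧ γ₀ * g (1 / γ₀) = 1) ∧
    (∀ γ : ℝ, γ > ((1 / 2) * Real.log (4 / 3))⁻¹ → γ * g (1 / γ) = 1 → γ = γ₀) ∧
    (41.6776 < γ₀ ∧ γ₀ < 41.6777) ∧
    (∀ H q a : ℕ, 1 ≤ q → ENNReal.ofReal γ₀ ≤ gammaRun H q a) ∧
    [(∀ n : ℕ, 1 ≤ n → ∃ k : ℕ, T^[k] n = 1) ∧ gamma = ENNReal.ofReal γ₀,
      ∀ H q a : ℕ, 1 ≤ H → 1 ≤ q → gammaRun H q a = ENNReal.ofReal γ₀,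
      ∃ H q a : ℕ, 1 ≤ H ∧ 1 ≤ q ∧ gammaRun H q a = ENNReal.ofReal γ₀,
      (∀ n : ℕ, 1 ≤ n → ∃ k : ℕ, T^[k] n = 1) ∧
        Tendsto (fun k : ℕ => Real.log (least k) / k) atTop (𝓝 (1 / γ₀))].TFAE := by
  obtain ⟨γ₀, hnum, hγ, huniq, _, hld⟩ := Pool.Agent.H395R2.G3.main_gamma
  have hγ4 : 4 < γ₀ := by linarith [hnum.1]
  have hγ0 : 0 < γ₀ := by linarith
  have hA : ∀ α : ℝ, 1 / Real.log 2 < α → α < γ₀ → 0 < 1 - α * g (1 / α) :=
    fun α h1 h2 => (hld α h1 h2).1
  have hl0 : 0 < Real.log (4 / 3) := Real.log_pos (by norm_num)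
  have hμe : ((1 / 2) * Real.log (4 / 3))⁻¹ = 2 / Real.log (4 / 3) := by
    field_simp
  have hγμ : 2 / Real.log (4 / 3) < γ₀ := by rw [← hμe]; exact hγ.1
  refine ⟨γ₀, hγ, huniq, hnum, fun H q a hq => gammaRun_ge hγ4 hA H q a hq, ?_⟩
  tfae_have 1 → 2 := by
    rintro ⟨_, h2⟩ H q a hH hq
    apply le_antisymm
    · rw [← h2]
      exact gammaRun_le H q a hH hq
    · exact gammaRun_ge hγ4 hA H q a hq
  tfae_have 2 → 3 := fun h => ⟨1, 1, 0, le_rfl, le_rfl, h 1 1 0 le_rfl le_rfl⟩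
  tfae_have 3 → 1 := by
    rintro ⟨H, q, a, hH, hq, h⟩
    have h1 := upper_of_run hγμ hq h
    obtain ⟨N, hN⟩ := h1 1 one_pos
    refine ⟨reaches_of_upper hN, le_antisymm (gamma_le_of_upper hγ0 h1) ?_⟩
    exact (gammaRun_ge hγ4 hA 1 1 0 le_rfl).trans (gammaRun_le 1 1 0 le_rfl le_rfl)
  tfae_have 1 → 4 := by
    rintro ⟨h1, h2⟩
    exact ⟨h1, limit_of_upper hγ4 hA (upper_of_gamma hγ0 h2)⟩
  tfae_have 4 → 1 := by
    rintro ⟨h1, h2⟩
    refine ⟨h1, le_antisymm (gamma_le_of_upper hγ0 (upper_of_limit hγ0 h1 h2)) ?_⟩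
    exact (gammaRun_ge hγ4 hA 1 1 0 le_rfl).trans (gammaRun_le 1 1 0 le_rfl le_rfl)
  tfae_finish

end Pool.Agent.N685.LC.Main
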