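import Pool.Agent.N685.LC.Base
import Pool.Agent.Y966.LD.Main2

/-!
Runs of consecutive integers with the same total stopping time and a straight trajectory.
-/

set_option autoImplicit false

namespace Pool.Agent.N685.LC

open Finset Pool.Agent.H395R2.G3 Pool.Agent.Y966.LD
open Pool.Agent.Y966.UB (Suff Wind piece_lower)

/-- `n, ..., n + h` have total stopping time `k` and straight trajectories: the logarithm loses `s` at
every step -/
def Run (h k : ℕ) (s ε : ℝ) : Set ℕ :=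
  {n : ℕ | ∀ i ≤ h, IsLeast {j : ℕ | fT^[j] (n + i) = 1} k ∧
    ∀ j ≤ k, |Real.log (fT^[j] (n + i) : ℕ) - s * (k - j)| ≤ ε * k}

theorem oc_eight : oc 3 8 = 0 := by decide

theorem shape_aux {r δ C : ℝ} (h0 : 0 < r) (h1 : r < 1) (hδ : 0 < δ) (hC : 0 < C) {k' M : ℕ}
    {b x : ℤ} (hb : TZ^[k'] b = 8) (hS : Suff r δ C k' b) (hx : TZ^[M] x = b) {j R : ℕ}
    (hjR : j + R = M + k' + 3) :
    |(oc R (TZ^[j] x) : ℝ) - r * R| ≤ δ * R + C + M + 6 := by
  have hR0 : (0 : ℝ) ≤ R := Nat.cast_nonneg R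
  have hM0 : (0 : ℝ) ≤ M := Nat.cast_nonneg M
  have hδR : 0 ≤ δ * R := by positivity
  rcases Nat.lt_or_ge R 3 with hR | hR
  · have h2 : (oc R (TZ^[j] x) : ℝ) ≤ R := by exact_mod_cast oc_le R _
    have h3 : (R : ℝ) < 3 := by exact_mod_cast hR
    have h4 : (0 : ℝ) ≤ oc R (TZ^[j] x) := Nat.cast_nonneg _
    have h5 : r * R ≤ 1 * R := mul_le_mul_of_nonneg_right h1.le hR0
    have h6 : 0 ≤ r * R := by positivity
    rw [abs_le]
    constructor <;> linarith
  -- the last `t + 3` steps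
  have key : ∀ t : ℕ, t ≤ k' → |(oc (t + 3) (TZ^[k' - t] b) : ℝ) - r * ((t + 3 : ℕ) : ℝ)| ≤
      δ * t + C + 3 := by
    intro t ht
    have e1 : oc (t + 3) (TZ^[k' - t] b) = oc t (TZ^[k' - t] b) := by
      rw [oc_add, ← Function.iterate_add_apply, show t + (k' - t) = k' by omega, hb, oc_eight,
        add_zero]
    rw [e1]
    have h2 := hS t ht
    push_cast
    have e2 : (oc t (TZ^[k' - t] b) : ℝ) - r * (t + 3) =
        ((oc t (TZ^[k' - t] b) : ℝ) - r * t) + (-(3 * r)) := by ring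
    rw [e2]
    refine (abs_add_le _ _).trans ?_
    have h3 : |(-(3 * r) : ℝ)| ≤ 3 := by
      rw [abs_neg, abs_of_pos (by positivity)]; linarith
    linarith
  rcases le_or_gt M j with h | h
  · obtain ⟨t, rfl⟩ : ∃ t, R = t + 3 := ⟨R - 3, by omega⟩
    have ht : t ≤ k' := by omega
    have e1 : TZ^[j] x = TZ^[k' - t] b := by
      rw [← hx, ← Function.iterate_add_apply]
      congr 2
      omega
    rw [e1]
    refine (key t ht).trans ?_
    push_cast
    nlinarith
  · obtain ⟨e, he⟩ : ∃ e, M = j + e := ⟨M - j, by omega⟩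
    have hR' : R = e + (k' + 3) := by omega
    have e1 : TZ^[e] (TZ^[j] x) = b := by
      rw [← Function.iterate_add_apply, show e + j = M by omega, hx]
    have e2 : oc R (TZ^[j] x) = oc e (TZ^[j] x) + oc (k' + 3) b := by
      rw [hR', oc_add, e1]
    have h2 := key k' le_rfl
    rw [Nat.sub_self, Function.iterate_zero, id] at h2
    have h3 : (oc e (TZ^[j] x) : ℝ) ≤ e := by exact_mod_cast oc_le e _
    have h4 : (0 : ℝ) ≤ oc e (TZ^[j] x) := Nat.cast_nonneg _
    have h5 : (e : ℝ) ≤ M := by exact_mod_cast (by omega : e ≤ M)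
    have h6 : (0 : ℝ) ≤ e := Nat.cast_nonneg _
    have h7 : r * e ≤ 1 * e := mul_le_mul_of_nonneg_right h1.le h6
    have h8 : 0 ≤ r * e := by positivity
    have h9 : (R : ℝ) = e + ((k' + 3 : ℕ) : ℝ) := by exact_mod_cast hR'
    rw [e2, h9]
    push_cast at h2 ⊢
    have e3 : (oc e (TZ^[j] x) : ℝ) + oc (k' + 3) b - r * (e + (k' + 3)) =
        ((oc e (TZ^[j] x) : ℝ) - r * e) + ((oc (k' + 3) b : ℝ) - r * (k' + 3)) := by ring
    rw [e3]
    refine (abs_add_le _ _).trans ?_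
    have h10 : |(oc e (TZ^[j] x) : ℝ) - r * e| ≤ e := by
      rw [abs_le]
      constructor <;> linarith
    nlinarith

theorem least_shift {n k j : ℕ} (h : IsLeast {i : ℕ | fT^[i] n = 1} k) (hj : j ≤ k) :
    IsLeast {i : ℕ | fT^[i] (fT^[j] n) = 1} (k - j) := by
  constructor
  · show fT^[k - j] (fT^[j] n) = 1
    rw [← Function.iterate_add_apply, Nat.sub_add_cancel hj]
    exact h.1
  · intro i hi
    have hi' : fT^[i] (fT^[j] n) = 1 := hi
    rw [← Function.iterate_add_apply] at hi'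
    have := h.2 hi'
    omega

theorem one_le_of_least {n k : ℕ} (h : IsLeast {i : ℕ | fT^[i] n = 1} k) : 1 ≤ n := pos_of_least h

/-- from the numbers of odd terms to the sizes -/
theorem size_of {r δ C' s ε : ℝ} (hs : s = Real.log 2 - r * Real.log 3) {k n : ℕ}
    (hk : IsLeast {i : ℕ | fT^[i] n = 1} k)
    (hoc : ∀ j R : ℕ, j + R = k → |(oc R (TZ^[j] (n : ℤ)) : ℝ) - r * R| ≤ δ * R + C')
    (hδ : 0 ≤ δ) (hbig : Real.log 3 * (δ * k + C') + Real.log (k + 1) ≤ ε * k) :
    ∀ j ≤ k, |Real.log (fT^[j] n : ℕ) - s * (k - j)| ≤ ε * k := by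
  intro j hj
  have hl3 : 0 < Real.log 3 := Real.log_pos (by norm_num)
  have h1 := least_shift hk hj
  have hy1 := one_le_of_least h1
  obtain ⟨a1, a2⟩ := log_size hy1 h1
  have h2 := hoc j (k - j) (by omega)
  rw [← cast_fT_iter, ← oN_eq] at h2
  set y := fT^[j] n with hy
  set o := oN (k - j) y with ho
  have hkj : ((k - j : ℕ) : ℝ) = (k : ℝ) - j := by rw [Nat.cast_sub hj]
  have h3 : (o : ℝ) ≤ k := by
    have : o ≤ k - j := oN_le _ _
    exact_mod_cast (by omega : o ≤ k)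
  have h4 : Real.log ((o : ℝ) + 1) ≤ Real.log (k + 1) :=
    Real.log_le_log (by positivity) (by linarith)
  have h5 : 0 ≤ Real.log ((o : ℝ) + 1) := Real.log_nonneg (by have : (0 : ℝ) ≤ o := Nat.cast_nonneg _; linarith)
  have h6 : δ * ((k - j : ℕ) : ℝ) ≤ δ * k := by
    apply mul_le_mul_of_nonneg_left _ hδ
    rw [hkj]
    have : (0 : ℝ) ≤ j := Nat.cast_nonneg j
    linarith
  have h7 : |((k - j : ℕ) : ℝ) * Real.log 2 - o * Real.log 3 - s * (k - j)| ≤
      Real.log 3 * (δ * k + C') := by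
    have e : ((k - j : ℕ) : ℝ) * Real.log 2 - o * Real.log 3 - s * (k - j) =
        -(Real.log 3 * ((o : ℝ) - r * ((k - j : ℕ) : ℝ))) := by
      rw [hs, hkj]
      ring
    rw [e, abs_neg, abs_mul, abs_of_pos hl3]
    exact mul_le_mul_of_nonneg_left (h2.trans (by linarith)) hl3.le
  have e2 : Real.log (y : ℕ) - s * (k - j) =
      (((k - j : ℕ) : ℝ) * Real.log 2 - o * Real.log 3 - s * (k - j)) +
      (Real.log y - (((k - j : ℕ) : ℝ) * Real.log 2 - o * Real.log 3)) := by ring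
  rw [e2]
  refine (abs_add_le _ _).trans ?_
  have h8 : |Real.log y - (((k - j : ℕ) : ℝ) * Real.log 2 - o * Real.log 3)| ≤ Real.log (k + 1) := by
    rw [abs_le]
    constructor <;> linarith
  linarith

theorem Run_finite (h k : ℕ) (s ε : ℝ) : (Run h k s ε).Finite := by
  apply (Lev_finite k).subset
  intro n hn
  have := (hn 0 (Nat.zero_le _)).1
  rw [add_zero] at this
  exact this

theorem run_lower_aux {r : ℝ} (h0 : 0 < r) (h1 : r < 1) (hF : 0 < FF r) {s : ℝ}
    (hs : s = Real.log 2 - r * Real.log 3) (h : ℕ) {ε : ℝ} (hε : 0 < ε) (hεF : ε ≤ FF r) :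
    ∃ k₀ : ℕ, ∀ k : ℕ, k₀ ≤ k → Real.exp ((FF r - ε) * k) ≤ ((Run h k s ε).ncard : ℝ) := by
  classical
  have hl3 : 0 < Real.log 3 := Real.log_pos (by norm_num)
  obtain ⟨J, c, hc1, hoc, hcl⟩ := coal_class h
  set N := oc J (c : ℤ) with hN
  set A := TZ^[J] (c : ℤ) with hA
  set S := 2 * 3 ^ (N + 1) with hS
  set δ : ℝ := min (ε / 4) (ε / (4 * Real.log 3)) with hδdef
  have hδ : 0 < δ := lt_min (by positivity) (by positivity)
  have hδ1 : δ ≤ ε / 4 := min_le_left _ _
  have hδ2 : Real.log 3 * δ ≤ ε / 4 := by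
    have h2 : δ ≤ ε / (4 * Real.log 3) := min_le_right _ _
    rw [le_div_iff₀ (by positivity)] at h2
    linarith
  obtain ⟨C, hC0, hpiece⟩ := piece_lower h0 h1 hF hδ
  set K : ℕ := J + S + 3 with hK
  set C' : ℝ := C + ((S + J : ℕ) : ℝ) + 6 with hC'
  obtain ⟨K', hK'0, hK'⟩ := log_lin (show 0 < ε / 4 by positivity)
  -- the last condition: `2 (A + 1) ≤ exp ((FF r - δ)(k - K) - C)` or the trivial case
  have hFabs : 0 ≤ |FF r| := abs_nonneg _
  set B : ℝ := (|FF r| + ε) * K + C + Real.log (A.natAbs + 2) with hB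
  obtain ⟨k₁, hk₁⟩ := exists_nat_ge (max ((Real.log 3 * C' + K') / (ε / 4)) (B / (ε / 4)))
  refine ⟨k₁ + K + 1, fun k hk => ?_⟩
  have hkr : (k₁ : ℝ) ≤ k := by exact_mod_cast (by omega : k₁ ≤ k)
  have hka : Real.log 3 * C' + K' ≤ ε / 4 * k := by
    have h2 : (Real.log 3 * C' + K') / (ε / 4) ≤ k := (le_max_left _ _).trans (hk₁.trans hkr)
    rw [div_le_iff₀ (by positivity)] at h2
    linarith
  have hkb : B ≤ ε / 4 * k := by
    have h2 : B / (ε / 4) ≤ k := (le_max_right _ _).trans (hk₁.trans hkr)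
    rw [div_le_iff₀ (by positivity)] at h2
    linarith
  have hk0 : (0 : ℝ) ≤ k := Nat.cast_nonneg k
  obtain ⟨k', hk'⟩ : ∃ k', k = k' + K := ⟨k - K, by omega⟩
  obtain ⟨G, hG1, hG2⟩ := hpiece k' 8 (by norm_num)
  -- the adjusting steps
  have hadj : ∀ b : ℤ, ∃ a : ℤ, b ∈ G → 0 < a ∧ TZ^[S] a = b ∧ (3 : ℤ) ^ N ∣ a - A := by
    intro b
    by_cases hb : b ∈ G
    · obtain ⟨g1, g2, g3, g4, _⟩ := hG2 b hb
      obtain ⟨a, ha⟩ := adjust N A g3 (g1 (by norm_num))
      exact ⟨a, fun _ => ha⟩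
    · exact ⟨0, fun h => absurd h hb⟩
  choose a ha using hadj
  have hadiv : ∀ b : ℤ, ∃ m : ℤ, b ∈ G → a b = A + 3 ^ N * m := by
    intro b
    by_cases hb : b ∈ G
    · obtain ⟨m, hm⟩ := (ha b hb).2.2
      exact ⟨m, fun _ => by linarith⟩
    · exact ⟨0, fun h => absurd h hb⟩
  choose m hm using hadiv
  set G₁ := G.filter (fun b => A ≤ a b) with hG₁
  have hainj : Set.InjOn a (G : Set ℤ) := by
    intro b hb b' hb' hab
    rw [← (ha b hb).2.1, ← (ha b' hb').2.1, hab]
  have hG₁card : (G.card : ℝ) ≤ G₁.card + (A.natAbs : ℝ) := by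
    have h2 : (G.filter (fun b => ¬ A ≤ a b)).card ≤ A.natAbs := by
      have h3 : ((G.filter (fun b => ¬ A ≤ a b)).image a).card ≤ (Finset.Ioo 0 A).card := by
        apply card_le_card
        intro z hz
        rw [mem_image] at hz
        obtain ⟨b, hb, rfl⟩ := hz
        rw [mem_filter] at hb
        rw [mem_Ioo]
        exact ⟨(ha b hb.1).1, by omega⟩
      rw [card_image_of_injOn (hainj.mono (by
        intro b hb
        rw [mem_coe, mem_filter] at hb
        exact hb.1)), Int.card_Ioo] at h3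
      omega
    have h3 := card_filter_add_card_filter_not (s := G) (fun b => A ≤ a b)
    have h4 : G.card ≤ G₁.card + A.natAbs := by
      rw [hG₁]
      omega
    exact_mod_cast h4
  -- the starting points
  set f : ℤ → ℕ := fun b => ((c : ℤ) + 2 ^ J * m b).toNat with hf
  have hmpos : ∀ b ∈ G₁, 0 ≤ m b := by
    intro b hb
    rw [hG₁, mem_filter] at hb
    have h2 := hm b hb.1
    have h3 : (0 : ℤ) ≤ 3 ^ N * m b := by linarith [hb.2]
    exact nonneg_of_mul_nonneg_right h3 (by positivity)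
  have hfc : ∀ b ∈ G₁, ((f b : ℕ) : ℤ) = (c : ℤ) + 2 ^ J * m b := by
    intro b hb
    rw [hf]
    simp only
    apply Int.toNat_of_nonneg
    have := hmpos b hb
    positivity
  have hfa : ∀ b ∈ G₁, ∀ i ≤ h, TZ^[J] ((f b + i : ℕ) : ℤ) = a b := by
    intro b hb i hi
    have h2 : b ∈ G := (mem_filter.1 hb).1
    rw [Nat.cast_add, hfc b hb, hcl i hi, ← hm b h2]
  have hmem : ∀ b ∈ G₁, f b ∈ Run h k s ε := by
    intro b hb i hi
    have hbG : b ∈ G := (mem_filter.1 hb).1
    obtain ⟨g1, g2, g3, g4, g5, g6⟩ := hG2 b hbG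
    have e1 := hfa b hb i hi
    have e2 : TZ^[S + J] ((f b + i : ℕ) : ℤ) = b := by
      rw [Function.iterate_add_apply, e1, (ha b hbG).2.1]
    have e3 : fT^[k' + (S + J)] (f b + i) = 8 := by
      have h2 := cast_fT_iter (k' + (S + J)) (f b + i)
      rw [Function.iterate_add_apply TZ, e2, g4] at h2
      exact_mod_cast h2
    have e4 : IsLeast {j : ℕ | fT^[j] (f b + i) = 1} k := by
      have h2 := least_of_eight e3
      have h3 : k' + (S + J) + 3 = k := by omega
      rwa [h3] at h2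
    refine ⟨e4, size_of (r := r) (δ := δ) (C' := C') hs e4 ?_ hδ.le ?_⟩
    · intro j R hjR
      have h2 := shape_aux h0 h1 hδ hC0 g4 g5 e2 (j := j) (R := R) (by omega)
      refine h2.trans (le_of_eq ?_)
      rw [hC']
      ring
    · have h2 := hK' k hk0
      have h3 : Real.log 3 * (δ * k + C') = Real.log 3 * δ * k + Real.log 3 * C' := by ring
      have h4 : Real.log 3 * δ * k ≤ ε / 4 * k := mul_le_mul_of_nonneg_right hδ2 hk0
      have h5 : 0 ≤ ε / 4 * k := by positivity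
      rw [h3]
      linarith
  have hinj : Set.InjOn f (G₁ : Set ℤ) := by
    intro b hb b' hb' hbb
    have hb1 : b ∈ G₁ := hb
    have hb1' : b' ∈ G₁ := hb'
    have h2 := hfa b hb1 0 (Nat.zero_le _)
    have h3 := hfa b' hb1' 0 (Nat.zero_le _)
    rw [hbb, h3] at h2
    exact hainj (mem_filter.1 hb1).1 (mem_filter.1 hb1').1 h2.symm
  have hcard : (G₁.card : ℝ) ≤ ((Run h k s ε).ncard : ℝ) := by
    have h2 := Set.ncard_le_ncard_of_injOn (s := (G₁ : Set ℤ)) (t := Run h k s ε) f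
      (fun b hb => hmem b hb) hinj (Run_finite h k s ε)
    rw [Set.ncard_coe_finset] at h2
    exact_mod_cast h2
  refine le_trans ?_ hcard
  -- the numbers
  have hfin : Real.exp ((FF r - ε) * k) + A.natAbs ≤ Real.exp ((FF r - δ) * k' - C) := by
    have e1 : (k' : ℝ) = k - K := by rw [hk']; push_cast; ring
    have hexp : (FF r - ε) * k + Real.log (A.natAbs + 2) ≤ (FF r - δ) * k' - C - ε / 4 * k := by
      rw [e1]
      have h2 : (FF r - δ) * (k - K) = (FF r - δ) * k - (FF r - δ) * K := by ring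
      have h3 : (FF r - δ) * (K : ℝ) ≤ (|FF r| + ε) * K := by
        apply mul_le_mul_of_nonneg_right _ (Nat.cast_nonneg K)
        have := le_abs_self (FF r)
        linarith
      have h4 : δ * k ≤ ε / 4 * k := mul_le_mul_of_nonneg_right hδ1 hk0
      have h5 : 0 ≤ ε / 4 * k := by positivity
      rw [h2]
      nlinarith
    have hlog2 : (0 : ℝ) < (A.natAbs : ℝ) + 2 := by positivity
    have h2 : Real.exp ((FF r - ε) * k) * ((A.natAbs : ℝ) + 2) ≤ Real.exp ((FF r - δ) * k' - C) := by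
      rw [← Real.exp_log hlog2, ← Real.exp_add]
      apply Real.exp_le_exp.2
      have : 0 ≤ ε / 4 * k := by positivity
      linarith
    have h3 : 1 ≤ Real.exp ((FF r - ε) * k) := Real.one_le_exp (mul_nonneg (by linarith) hk0)
    have h4 : (0 : ℝ) ≤ (A.natAbs : ℝ) := Nat.cast_nonneg _
    nlinarith
  linarith

theorem Run_mono {h k : ℕ} {s ε ε' : ℝ} (he : ε ≤ ε') : Run h k s ε ⊆ Run h k s ε' := by
  intro n hn i hi
  refine ⟨(hn i hi).1, fun j hj => ((hn i hi).2 j hj).trans ?_⟩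
  exact mul_le_mul_of_nonneg_right he (Nat.cast_nonneg k)

/-- RUNS: lower bound for every level -/
theorem run_lower {r : ℝ} (h0 : 0 < r) (h1 : r < 1) (hF : 0 < FF r) {s : ℝ}
    (hs : s = Real.log 2 - r * Real.log 3) (h : ℕ) {ε : ℝ} (hε : 0 < ε) :
    ∃ k₀ : ℕ, ∀ k : ℕ, k₀ ≤ k → Real.exp ((FF r - ε) * k) ≤ ((Run h k s ε).ncard : ℝ) := by
  obtain ⟨k₀, hk₀⟩ := run_lower_aux h0 h1 hF hs h (show 0 < min ε (FF r) from lt_min hε hF)
    (min_le_right _ _)
  refine ⟨k₀, fun k hk => ?_⟩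
  have h2 := hk₀ k hk
  have h3 : ((Run h k s (min ε (FF r))).ncard : ℝ) ≤ ((Run h k s ε).ncard : ℝ) := by
    exact_mod_cast Set.ncard_le_ncard (Run_mono (min_le_left _ _)) (Run_finite h k s ε)
  refine le_trans (Real.exp_le_exp.2 ?_) (h2.trans h3)
  apply mul_le_mul_of_nonneg_right _ (Nat.cast_nonneg k)
  have := min_le_left ε (FF r)
  linarith

/-- RUNS IN RESIDUE CLASSES: lower bound for every level -/
theorem class_lower {r : ℝ} (h0 : 0 < r) (h1 : r < 1) (hF : 0 < FF r) {s : ℝ}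
    (hs : s = Real.log 2 - r * Real.log 3) (h q a : ℕ) (hq : 1 ≤ q) {ε : ℝ} (hε : 0 < ε) :
    ∃ k₀ : ℕ, ∀ k : ℕ, k₀ ≤ k →
      Real.exp ((FF r - ε) * k) ≤ (({n : ℕ | n ≡ a [MOD q] ∧ n ∈ Run h k s ε}).ncard : ℝ) := by
  classical
  obtain ⟨k₀, hk₀⟩ := run_lower h0 h1 hF hs (h + q) (show 0 < ε / 2 by positivity)
  obtain ⟨k₁, hk₁⟩ := exists_nat_ge (Real.log q / (ε / 2))
  refine ⟨max k₀ k₁, fun k hk => ?_⟩
  have h2 := hk₀ k ((le_max_left _ _).trans hk)
  set B : Set ℕ := {n : ℕ | n ≡ a [MOD q] ∧ n ∈ Run h k s ε} with hB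
  have hBf : B.Finite := (Run_finite h k s ε).subset fun n hn => hn.2
  have hq0 : (0 : ℝ) < q := by exact_mod_cast hq
  -- covering
  have hcov : ((Run (h + q) k s (ε / 2)).ncard) ≤ q * B.ncard := by
    have hsub : Run (h + q) k s (ε / 2) ⊆ ⋃ i ∈ Finset.range q, {n : ℕ | n + i ∈ B} := by
      intro n hn
      -- choose `i`
      obtain ⟨i, hi, hi2⟩ : ∃ i < q, n + i ≡ a [MOD q] := by
        refine ⟨(a + (q - n % q)) % q, Nat.mod_lt _ (by omega), ?_⟩
        have hlt := Nat.mod_lt n (show 0 < q by omega)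
        have e1 : n + (a + (q - n % q)) % q ≡ n + (a + (q - n % q)) [MOD q] :=
          Nat.ModEq.add_left _ (Nat.mod_modEq _ _)
        refine e1.trans ?_
        have hdm := Nat.div_add_mod n q
        have e2 : n + (a + (q - n % q)) = a + q * (n / q + 1) := by
          rw [mul_add, mul_one]
          omega
        rw [e2]
        exact (Nat.modEq_zero_iff_dvd.2 (Dvd.intro _ rfl)).add_left a
      rw [Set.mem_iUnion₂]
      refine ⟨i, Finset.mem_range.2 hi, hi2, ?_⟩
      intro i' hi'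
      have h3 := hn (i + i') (by omega)
      rw [← add_assoc] at h3
      refine ⟨h3.1, fun j hj => (h3.2 j hj).trans ?_⟩
      apply mul_le_mul_of_nonneg_right _ (Nat.cast_nonneg k)
      linarith
    have hfin : ∀ i ∈ Finset.range q, ({n : ℕ | n + i ∈ B}).Finite := by
      intro i _
      exact Set.Finite.preimage (fun x _ y _ hxy => by simpa using hxy) hBf
    have h3 := Set.ncard_le_ncard hsub (Set.Finite.biUnion (Finset.finite_toSet _) hfin)
    refine h3.trans ?_
    have h4 : (⋃ i ∈ Finset.range q, {n : ℕ | n + i ∈ B}).ncard ≤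
        ∑ i ∈ Finset.range q, ({n : ℕ | n + i ∈ B}).ncard := by
      have : ∀ s : Finset ℕ, (∀ i ∈ s, ({n : ℕ | n + i ∈ B}).Finite) →
          (⋃ i ∈ s, {n : ℕ | n + i ∈ B}).ncard ≤ ∑ i ∈ s, ({n : ℕ | n + i ∈ B}).ncard := by
        intro s
        induction s using Finset.induction_on with
        | empty => intro _; simp
        | insert x s hx ih =>
          intro hf
          rw [Finset.set_biUnion_insert, Finset.sum_insert hx]
          exact (Set.ncard_union_le _ _).trans (Nat.add_le_add_left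
            (ih fun i hi => hf i (Finset.mem_insert_of_mem hi)) _)
      exact this _ hfin
    refine h4.trans ?_
    have h5 : ∀ i ∈ Finset.range q, ({n : ℕ | n + i ∈ B}).ncard ≤ B.ncard := by
      intro i _
      exact Set.ncard_le_ncard_of_injOn (fun n => n + i) (fun n hn => hn)
        (fun x _ y _ hxy => by simpa using hxy) hBf
    refine (Finset.sum_le_sum h5).trans ?_
    rw [Finset.sum_const, Finset.card_range, smul_eq_mul]
  have hcov' : ((Run (h + q) k s (ε / 2)).ncard : ℝ) ≤ q * (B.ncard : ℝ) := by exact_mod_cast hcov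
  have h6 : Real.exp ((FF r - ε) * k) * q ≤ Real.exp ((FF r - ε / 2) * k) := by
    have h7 : Real.log q ≤ ε / 2 * k := by
      have h8 : Real.log q / (ε / 2) ≤ k :=
        hk₁.trans (by exact_mod_cast (le_max_right k₀ k₁).trans hk)
      rw [div_le_iff₀ (by positivity)] at h8
      linarith
    conv_lhs => rw [← Real.exp_log hq0, ← Real.exp_add]
    apply Real.exp_le_exp.2
    linarith
  have h9 : Real.exp ((FF r - ε) * k) * q ≤ (B.ncard : ℝ) * q := by
    rw [mul_comm (B.ncard : ℝ)]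
    exact h6.trans (h2.trans hcov')
  exact le_of_mul_le_mul_right h9 hq0

end Pool.Agent.N685.LC
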